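import Pool.Agent.W908.T.T11
import Pool.Agent.W908.S.S11

set_option autoImplicit false

/-!
# Exponential time with unique certificates, hard on average, and no quantum advantage
-/

namespace Pool.Agent.Results.MP_f404b1_lc.ExpUnambiguousNoQuantum

open Pool.Agent.NPC Pool.Agent.H620R2.Gauge Pool.Agent.W908 Pool.Agent.W908.HS

/-- There is an oracle `O` relative to which
(1) quantum computers have no advantage, even for promise problems: for every uniform family `C`
of polynomial-size quantum circuits with gates for `O` there is a function `D` computable in
deterministic polynomial time relative to `O` with `D x = [true]` if `C x` accepts with probability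
at least `2 / 3`, and `D x ≠ [true]` if `C x` accepts with probability at most `1 / 3`;
(2) every language in polynomial space or in exponential time is in `UP` and in `coUP`;
(3) some language `L` with `L` and its complement in `UP` (hence in polynomial space) is
exponentially hard on average: for every `D` computable in polynomial time relative to `O` there is
`d > 0` such that for every `n ≥ d` and every string `h` of length at most `2 ^ (n / d)` the answer
`D ⟨x, h⟩` is right for at most the fraction `1 / 2 + (1 / 2) ^ (n / d)` of the strings `x` of
length `n`. -/
theorem result : ∃ O : Oracle,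
    (∀ C : List Bool → List Unit × List Gate, PolyTime (fun x => bits (C x)) →
      ∃ D : List Bool → List Bool, IsFP O D ∧ ∀ x : List Bool,
        (2 / 3 ≤ accProb O (C x) → D x = [true]) ∧ (accProb O (C x) ≤ 1 / 3 → D x ≠ [true])) ∧
    (∀ L : Set (List Bool), IsPSPACE O L ∨ IsEXP O L → IsUP O L ∧ IsUP O Lᶜ) ∧
    ∃ L : Set (List Bool), IsUP O L ∧ IsUP O Lᶜ ∧ ExpHardOnAverage O L := by
  obtain ⟨O, h1, h2, h3⟩ := Pool.Agent.W908.TS.mainTI
  exact ⟨O, h1, fun L hL => h2 L (hL.elim Pool.Agent.W908.SP.isEXP_of_isPSPACE id), h3⟩

end Pool.Agent.Results.MP_f404b1_lc.ExpUnambiguousNoQuantum
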