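import Pool.Agent.W901.NU.PSp

/-!
# `P = PSPACE` and the prediction of answers: a square-root law

Polynomial time is Mathlib's `Turing.TM2ComputableInPolyTime`, for functions on bit strings, and
polynomial space (`InPSPACE`) is measured on the same machines; `PSPACEHard` is hardness under
polynomial-time many-one reductions.

A set `A` is `(δ, ε)`-predictable if there are an oracle `X` (an arbitrary set) and a polynomial-time
algorithm, asking `X` at most `O(log n)` questions, which computes for every list of `m` questions of
length at most `m ^ ε` about membership in `A` predictions for a nonempty subset of `s` of them (it
may abstain on all the others) such that the number of right predictions and the number of wrong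
predictions differ by at least `m ^ δ * √ s`.  It is fully `δ`-predictable if this holds for all lists
of questions, of any length, with predictions for all questions.

The theorem. For `ε > 0` and `0 < δ ≤ 1 / 2` the following are equivalent: `P = PSPACE`; some
`PSPACE`-hard set is `(δ, ε)`-predictable; every set in `PSPACE` is fully `δ`-predictable. For `δ ≤ 0`
every set whatsoever is fully `δ`-predictable. So random guessing, improved by more than a constant
number of standard deviations, is possible for the answers of a `PSPACE`-complete set only if
`P = PSPACE`.

Proof. Let `A` be `PSPACE`-hard and predictable. Then it is `NP`-hard and `P = NP`, by the square-root
law for `NP` (isolation of a unique witness, pseudorandom codes with independent coordinates, and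
high moments). The nodes of the evaluation tree of a quantified Boolean formula reduce to `A`.
Online learning (weighted vote of the prediction vectors with adaptive learning rate) and boosting
give an advice string of polynomial length from which the values of ALL nodes of the tree can be
computed in polynomial time. Whether a given advice string is locally consistent (at every inner
node the claimed value is the conjunction or disjunction of the claimed values of the two sons, at
the leaves it is the right one) is a `coNP` question, and local consistency implies correctness. So
the value of the formula is given by an existential quantifier followed by a universal one, and
both can be removed because `P = NP`.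
-/

set_option autoImplicit false

namespace Pool.Agent.Results.MP_f404b1_lc.PredictionLaw

open Pool.Agent.NPC Pool.Agent.H623R2.PS Pool.Agent.W901.AT Pool.Agent.W901.NU

theorem result (δ ε : ℝ) :
    (0 < δ → δ ≤ 1 / 2 → 0 < ε → List.TFAE
      [∀ L : Set (List Bool), InPSPACE L → InP L,
        ∃ A : Set (List Bool), PSPACEHard A ∧ Predictable δ ε A,
        ∀ A : Set (List Bool), InPSPACE A → FullyPredictable δ A]) ∧
    (δ ≤ 0 → ∀ A : Set (List Bool), FullyPredictable δ A) :=
  pspace_law δ ε

end Pool.Agent.Results.MP_f404b1_lc.PredictionLaw
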