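import Pool.Agent.W969.MC.Qbf3

/-!
Quantified 3-SAT and monotone circuits with few negations: the bound `2 ^ (c n)`.

Let `φ` be a 3-CNF formula over the variables `x_1, ..., x_n, y_1, ..., y_n`, given by one bit for
each clause with at most three literals (does it occur). Whether `∀ x ∃ y φ(x, y)` is false is a
monotone function of these bits, a special case of the `PSPACE`-complete problem of quantified
Boolean formulas. It has monotone circuits with about `4 ^ n n ^ 3` gates (try all assignments).
Here it is shown that this is optimal up to a constant in the exponent: monotone circuits for it need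
size `2 ^ (c n)`. The bound holds in a stronger model: the circuits compute with real numbers, their
monotone gates compute arbitrary nondecreasing real functions of two arguments (Pudlák's model), and
there may be further arbitrary gates, for instance up to `(1 - ε) log₂ n` NOT gates. With up to
`(3 - 2 α - ε) log₂ n` NOT gates the size is at least `2 ^ (c n ^ α)`, for `0 < α ≤ 1`. (With
`3 log₂ n + O(1)` NOT gates, monotone and general circuits do not differ much, by theorems of Markov
and Fischer.)

The proof: `M` constraints, each on `a` of `m` variables with values in an alphabet with `q`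
letters, on a sparse expanding hypergraph; the constraint number `i` is an arbitrary set of tuples
`X i`, and the function is: is there an assignment that satisfies all constraints. Monotone circuits
for it need size `q ^ (c m)` although the alphabet has only `q = m ^ (O(1) / a)` letters (this is the
bound behind `MP_8a52c3_lc.MonotoneTwoThirds`). Here the assignment is written in binary with
`m log₂ q` universal variables. The existential variables name a constraint `i` and two partial
tuples that agree with the assignment, each in unary, with `M` and with `q ^ (a / 2)`, which is less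
than `M`, variables. So a bit `(i, σ)` of the input becomes a clause with three literals, and there
are only `O(m log q)` variables. Several copies of the function can share the variables: the number
of the copy is chosen by the universal variables and is a part of the three names.
-/

namespace Pool.Agent.Results.MP_f404b1_lc.QuantifiedThreeSat

/-- A real circuit with the input bits `Inp` and the gates `0, ..., s - 1`. Gate `i` has `w i`
inputs, namely `a i j`, each an input bit (`0` or `1`) or an earlier gate, and its value on the
input `x` is `val x i`. The gates outside `T` compute nondecreasing functions of at most two real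
numbers. The output of a gate `i` in `T` depends in an arbitrary way on the bits that tell whether
`θ i j` is at most the `j`-th input (a NOT gate, for instance). The circuit accepts if the value of
gate `out` is at least `τ`. -/
structure RealCircuit (Inp : Type) where
  s : ℕ
  T : Finset (Fin s)
  w : Fin s → ℕ
  a : (i : Fin s) → Fin (w i) → Inp ⊕ Fin s
  op : (i : Fin s) → (Fin (w i) → ℝ) → ℝ
  θ : (i : Fin s) → Fin (w i) → ℝ
  val : (Inp → Bool) → Fin s → ℝ
  out : Fin s
  τ : ℝ
  earlier : ∀ i j k, a i j = Sum.inr k → k < i
  mono : ∀ i ∉ T, w i ≤ 2 ∧ Monotone (op i)
  free : ∀ i ∈ T, ∀ z z' : Fin (w i) → ℝ, (∀ j, θ i j ≤ z j ↔ θ i j ≤ z' j) → op i z = op i z'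
  spec : ∀ x i, val x i = op i (fun j =>
    Sum.elim (fun p => if x p = true then (1 : ℝ) else 0) (val x) (a i j))

/-- The size: the number of gates plus the number of inputs of the gates in `T`. -/
def RealCircuit.size {Inp : Type} (C : RealCircuit Inp) : ℕ := C.s + ∑ i ∈ C.T, C.w i

/-- The product of the numbers `w i + 1` over the gates in `T`. It is `1` for monotone circuits and
`2 ^ t` if `T` consists of `t` NOT gates. -/
def RealCircuit.freedom {Inp : Type} (C : RealCircuit Inp) : ℕ := ∏ i ∈ C.T, (C.w i + 1)

/-- The clauses with at most three literals over the variables `x_1, ..., x_n` (`Sum.inl`) and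
`y_1, ..., y_n` (`Sum.inr`). The literal `(v, true)` is the variable `v`, and `(v, false)` is its
negation. -/
abbrev Clause (n : ℕ) : Type := {c : Finset ((Fin n ⊕ Fin n) × Bool) // c.card ≤ 3}

/-- The quantified formula `∀ x ∃ y φ(x, y)` is true, where `φ` consists of the clauses `c` with
`z c = true`. -/
def ForallExists (n : ℕ) (z : Clause n → Bool) : Prop :=
  ∀ x : Fin n → Bool, ∃ y : Fin n → Bool, ∀ c : Clause n, z c = true →
    ∃ l ∈ c.1, Sum.elim x y l.1 = l.2

/-- For all `α` with `0 < α ≤ 1` and all `ε > 0` there is `c > 0` such that for all large `n`, every
real circuit that decides whether a formula `∀ x ∃ y φ(x, y)` is false, for 3-CNF formulas `φ` in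
`n + n` variables, and whose number `freedom` is at most `n ^ (3 - 2 α - ε)` has size at least
`2 ^ (c n ^ α)`. For `α = 1`: `2 ^ (c n)` if `freedom` is at most `n ^ (1 - ε)`. -/
theorem result (α ε : ℝ) (hα : 0 < α) (hα1 : α ≤ 1) (hε : 0 < ε) :
    ∃ c : ℝ, 0 < c ∧ ∃ n1 : ℕ, ∀ n : ℕ, n1 ≤ n → ∀ C : RealCircuit (Clause n),
      (∀ z, C.τ ≤ C.val z C.out ↔ ¬ ForallExists n z) →
      (C.freedom : ℝ) ≤ (n : ℝ) ^ (3 - 2 * α - ε) →
      (2 : ℝ) ^ (c * (n : ℝ) ^ α) ≤ (C.size : ℝ) := by
  obtain ⟨c, hc, n1, H⟩ := Pool.Agent.W969.MC.qbf_main α ε hα hα1 hε
  refine ⟨c, hc, n1, ?_⟩
  intro n hn C hC hfree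
  exact H n hn C.earlier C.mono C.free C.spec C.out C.τ hC hfree

end Pool.Agent.Results.MP_f404b1_lc.QuantifiedThreeSat
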