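import Pool.Agent.W903.GP.Groups

/-!
# `P = PSPACE` as a property of the group of polynomial-time length-preserving permutations

Let `AutP` be the group of the permutations of the set of bit strings that are computable in
polynomial time together with their inverse, `GrpP` its subgroup of the length-preserving
permutations, and let `GrpS` be the group of the length-preserving permutations whose graph is in
`PSPACE`. In `GrpS` every element is conjugate to its inverse. We show that `P = PSPACE` if and
only if this holds in `GrpP`, if and only if every element of `GrpP` is a product of two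
involutions, if and only if every element of `GrpP` is conjugate in the larger group `AutP` to its
inverse, if and only if the abstract groups `GrpP` and `GrpS` are isomorphic.
-/

namespace Pool.Agent.Results.MP_f404b1_lc.ZAmbivalentGroup

open Turing

/-- A function on bit strings is polynomial-time computable: some Turing machine (in the sense of
Mathlib) computes it in polynomially many steps. -/
def PolyTime (f : List Bool → List Bool) : Prop :=
  Nonempty (TM2ComputableInPolyTime (id : List Bool → List Bool) (id : List Bool → List Bool) f)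

/-- The class `P`. -/
def InP (L : Set (List Bool)) : Prop :=
  ∃ V : List Bool → List Bool, PolyTime V ∧ ∀ x, x ∈ L ↔ V x = [true]

/-- The class `PSPACE`: `L` is decided by a (deterministic) machine such that, on input `x`, in
every configuration reached the length of every stack is at most `p |x|`, for a polynomial `p`. -/
def InPSPACE (L : Set (List Bool)) : Prop :=
  ∃ (tm : FinTM2) (ein : tm.Γ tm.k₀ ≃ Bool) (eout : tm.Γ tm.k₁ ≃ Bool) (p : Polynomial ℕ),
    ∀ x : List Bool,
      (∃ (n : ℕ) (b : Bool), (b = true ↔ x ∈ L) ∧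
        (flip bind tm.step)^[n] (some (initList tm (x.map ein.symm))) =
          some (haltList tm [eout.symm b])) ∧
      ∀ (i : ℕ) (c : tm.Cfg),
        (flip bind tm.step)^[i] (some (initList tm (x.map ein.symm))) = some c →
          ∀ k, (c.stk k).length ≤ p.eval x.length

/-- The pair of two bit strings, as a bit string: each bit of `x` is preceded by a `true`, then
comes a `false`, then `w`. -/
def pairBits (x w : List Bool) : List Bool := x.flatMap (fun b => [true, b]) ++ false :: w

/-- The graph of a function on bit strings, as a set of bit strings. -/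
def graph (f : List Bool → List Bool) : Set (List Bool) := {z | ∃ x, z = pairBits x (f x)}

theorem mul_mem_P {f g : Equiv.Perm (List Bool)}
    (hf : (∀ x, (f x).length = x.length) ∧ PolyTime ⇑f ∧ PolyTime ⇑f⁻¹)
    (hg : (∀ x, (g x).length = x.length) ∧ PolyTime ⇑g ∧ PolyTime ⇑g⁻¹) :
    (∀ x, ((f * g) x).length = x.length) ∧ PolyTime ⇑(f * g) ∧ PolyTime ⇑(f * g)⁻¹ :=
  Pool.Agent.W903.GP.GrpP.mul_mem hf hg

theorem one_mem_P : (∀ x, ((1 : Equiv.Perm (List Bool)) x).length = x.length) ∧
    PolyTime ⇑(1 : Equiv.Perm (List Bool)) ∧ PolyTime ⇑(1 : Equiv.Perm (List Bool))⁻¹ :=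
  Pool.Agent.W903.GP.GrpP.one_mem

theorem inv_mem_P {f : Equiv.Perm (List Bool)}
    (hf : (∀ x, (f x).length = x.length) ∧ PolyTime ⇑f ∧ PolyTime ⇑f⁻¹) :
    (∀ x, (f⁻¹ x).length = x.length) ∧ PolyTime ⇑f⁻¹ ∧ PolyTime ⇑(f⁻¹)⁻¹ :=
  Pool.Agent.W903.GP.GrpP.inv_mem hf

/-- The group of the length-preserving permutations `f` of the set of bit strings such that `f`
and its inverse are computable in polynomial time. -/
def GrpP : Subgroup (Equiv.Perm (List Bool)) where
  carrier := {f | (∀ x, (f x).length = x.length) ∧ PolyTime ⇑f ∧ PolyTime ⇑f⁻¹}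
  mul_mem' := mul_mem_P
  one_mem' := one_mem_P
  inv_mem' := inv_mem_P

theorem mul_mem_S {f g : Equiv.Perm (List Bool)}
    (hf : (∀ x, (f x).length = x.length) ∧ InPSPACE (graph ⇑f))
    (hg : (∀ x, (g x).length = x.length) ∧ InPSPACE (graph ⇑g)) :
    (∀ x, ((f * g) x).length = x.length) ∧ InPSPACE (graph ⇑(f * g)) :=
  Pool.Agent.W903.GP.GrpS.mul_mem hf hg

theorem one_mem_S : (∀ x, ((1 : Equiv.Perm (List Bool)) x).length = x.length) ∧
    InPSPACE (graph ⇑(1 : Equiv.Perm (List Bool))) :=
  Pool.Agent.W903.GP.GrpS.one_mem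

theorem inv_mem_S {f : Equiv.Perm (List Bool)}
    (hf : (∀ x, (f x).length = x.length) ∧ InPSPACE (graph ⇑f)) :
    (∀ x, (f⁻¹ x).length = x.length) ∧ InPSPACE (graph ⇑f⁻¹) :=
  Pool.Agent.W903.GP.GrpS.inv_mem hf

theorem mul_mem_A {f g : Equiv.Perm (List Bool)} (hf : PolyTime ⇑f ∧ PolyTime ⇑f⁻¹)
    (hg : PolyTime ⇑g ∧ PolyTime ⇑g⁻¹) : PolyTime ⇑(f * g) ∧ PolyTime ⇑(f * g)⁻¹ :=
  Pool.Agent.W903.GP.AutP.mul_mem hf hg

theorem one_mem_A : PolyTime ⇑(1 : Equiv.Perm (List Bool)) ∧
    PolyTime ⇑(1 : Equiv.Perm (List Bool))⁻¹ :=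
  Pool.Agent.W903.GP.AutP.one_mem

theorem inv_mem_A {f : Equiv.Perm (List Bool)} (hf : PolyTime ⇑f ∧ PolyTime ⇑f⁻¹) :
    PolyTime ⇑f⁻¹ ∧ PolyTime ⇑(f⁻¹)⁻¹ :=
  Pool.Agent.W903.GP.AutP.inv_mem hf

/-- The group of the permutations `f` of the set of bit strings such that `f` and its inverse are
computable in polynomial time; their effect on the length is not restricted. -/
def AutP : Subgroup (Equiv.Perm (List Bool)) where
  carrier := {f | PolyTime ⇑f ∧ PolyTime ⇑f⁻¹}
  mul_mem' := mul_mem_A
  one_mem' := one_mem_A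
  inv_mem' := inv_mem_A

/-- The group of the length-preserving permutations of the set of bit strings whose graph is in
`PSPACE`. -/
def GrpS : Subgroup (Equiv.Perm (List Bool)) where
  carrier := {f | (∀ x, (f x).length = x.length) ∧ InPSPACE (graph ⇑f)}
  mul_mem' := mul_mem_S
  one_mem' := one_mem_S
  inv_mem' := inv_mem_S

/-- In `GrpS` every element is inverted by an involution; and `P = PSPACE` holds if and only if
every element of `GrpP` is conjugate in `GrpP` to its inverse, if and only if every element of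
`GrpP` is the product of two elements of `GrpP` with square `1`, if and only if every element of
`GrpP` is conjugate in `AutP` to its inverse, if and only if the groups `GrpP` and `GrpS` are
isomorphic. -/
theorem result :
    (∀ f ∈ GrpS, ∃ s ∈ GrpS, s * s = 1 ∧ s * f * s⁻¹ = f⁻¹) ∧
    List.TFAE [
      ∀ L : Set (List Bool), InPSPACE L ↔ InP L,
      ∀ f ∈ GrpP, ∃ s ∈ GrpP, s * f * s⁻¹ = f⁻¹,
      ∀ f ∈ GrpP, ∃ a ∈ GrpP, ∃ b ∈ GrpP, a * a = 1 ∧ b * b = 1 ∧ f = a * b,
      ∀ f ∈ GrpP, ∃ s ∈ AutP, s * f * s⁻¹ = f⁻¹,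
      Nonempty (GrpP ≃* GrpS)] :=
  ⟨fun _ hf => Pool.Agent.W903.GP.exists_mirror hf, Pool.Agent.W903.GP.main_tfae⟩

end Pool.Agent.Results.MP_f404b1_lc.ZAmbivalentGroup
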