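import Pool.Agent.W890.LC.Main

/-!
# `P = PSPACE` and the colouring of polynomial-time permutations

Let `GrpP` be the set of the length-preserving permutations `f` of the set of bit strings such that
`f` and its inverse are computable in polynomial time. Let `E` be a finite digraph. An
`E`-colouring of `f` is a map `c` from the bit strings to the vertices of `E` such that
`(c x, c (f x))` is an arc of `E` for all `x` with `f x ≠ x`. We prove a dichotomy. If some vertex
of `E` has closed walks of all sufficiently large lengths, or if `E` has no closed walk of positive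
length, then every `f` in `GrpP` which has an `E`-colouring has one which is computable in
polynomial time. For all other `E` this holds if and only if `P = PSPACE`. For example, every `f`
in `GrpP` has a polynomial-time proper colouring with three colours; and all `f` in `GrpP` with a
proper colouring with two colours have a polynomial-time one if and only if `P = PSPACE`.
-/

namespace Pool.Agent.Results.MP_f404b1_lc.ZLocalColouring

open Turing

/-- A function on bit strings is polynomial-time computable: some Turing machine (in the sense of
Mathlib) computes it in polynomially many steps. -/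
def PolyTime (f : List Bool → List Bool) : Prop :=
  Nonempty (TM2ComputableInPolyTime (id : List Bool → List Bool) (id : List Bool → List Bool) f)

/-- The class `P`. -/
def InP (L : Set (List Bool)) : Prop :=
  ∃ V : List Bool → List Bool, PolyTime V ∧ ∀ x, x ∈ L ↔ V x = [true]

/-- The class `PSPACE`: `L` is decided by a (deterministic) machine such that, on input `x`, in
every configuration reached the length of every stack is at most `p |x|`, for a polynomial `p`. -/
def InPSPACE (L : Set (List Bool)) : Prop :=
  ∃ (tm : FinTM2) (ein : tm.Γ tm.k₀ ≃ Bool) (eout : tm.Γ tm.k₁ ≃ Bool) (p : Polynomial ℕ),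
    ∀ x : List Bool,
      (∃ (n : ℕ) (b : Bool), (b = true ↔ x ∈ L) ∧
        (flip bind tm.step)^[n] (some (initList tm (x.map ein.symm))) =
          some (haltList tm [eout.symm b])) ∧
      ∀ (i : ℕ) (c : tm.Cfg),
        (flip bind tm.step)^[i] (some (initList tm (x.map ein.symm))) = some c →
          ∀ k, (c.stk k).length ≤ p.eval x.length

/-- The length-preserving permutations of the set of bit strings that are computable in polynomial
time together with their inverse. -/
def GrpP : Set (Equiv.Perm (List Bool)) :=
  {f | (∀ x, (f x).length = x.length) ∧ PolyTime ⇑f ∧ PolyTime ⇑f⁻¹}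

/-- The digraph with vertices `Fin k` and arcs `E` has a walk of length `n` from `u` to `v`. -/
def Walk {k : ℕ} (E : Fin k → Fin k → Prop) (n : ℕ) (u v : Fin k) : Prop :=
  ∃ w : ℕ → Fin k, w 0 = u ∧ w n = v ∧ ∀ i < n, E (w i) (w (i + 1))

/-- Some vertex has closed walks of all sufficiently large lengths (that is, some strongly
connected component is aperiodic), or there is no closed walk of positive length. -/
def Easy {k : ℕ} (E : Fin k → Fin k → Prop) : Prop :=
  (∃ v N, ∀ n ≥ N, Walk E n v v) ∨ ∀ v n, Walk E n v v → n = 0

/-- `f` has an `E`-colouring. The points fixed by `f` are exempt. -/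
def Colourable {k : ℕ} (E : Fin k → Fin k → Prop) (f : Equiv.Perm (List Bool)) : Prop :=
  ∃ c : List Bool → Fin k, ∀ x, f x ≠ x → E (c x) (c (f x))

/-- `f` has an `E`-colouring which is computable in polynomial time; the colour `i` is written as
a string of `i` letters `true`. -/
def PolyColourable {k : ℕ} (E : Fin k → Fin k → Prop) (f : Equiv.Perm (List Bool)) : Prop :=
  ∃ c : List Bool → Fin k, PolyTime (fun x => List.replicate ((c x : Fin k) : ℕ) true) ∧
    ∀ x, f x ≠ x → E (c x) (c (f x))

/-- **The dichotomy for the colouring of polynomial-time permutations**, and the special case of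
proper colourings with at least three, and with two colours. -/
theorem result :
    (∀ (k : ℕ) (E : Fin k → Fin k → Prop), Easy E →
      ∀ f ∈ GrpP, Colourable E f → PolyColourable E f) ∧
    (∀ (k : ℕ) (E : Fin k → Fin k → Prop), ¬ Easy E →
      ((∀ f ∈ GrpP, Colourable E f → PolyColourable E f) ↔
        ∀ L : Set (List Bool), InPSPACE L ↔ InP L)) ∧
    (∀ k ≥ 3, ∀ f ∈ GrpP, PolyColourable (fun i j : Fin k => i ≠ j) f) ∧
    ((∀ f ∈ GrpP, Colourable (fun i j : Fin 2 => i ≠ j) f →
        PolyColourable (fun i j : Fin 2 => i ≠ j) f) ↔
      ∀ L : Set (List Bool), InPSPACE L ↔ InP L) := by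
  refine ⟨fun k E h => (Pool.Agent.W890.LC.allColT_iff E).2 (Pool.Agent.W890.LC.allCol_of_easy h),
    fun k E h => (Pool.Agent.W890.LC.allColT_iff E).trans (Pool.Agent.W890.LC.allCol_iff h), ?_,
    (Pool.Agent.W890.LC.allColT_iff _).trans
      (Pool.Agent.W890.LC.allCol_iff Pool.Agent.W890.LC.not_easy_two)⟩
  rintro k hk f ⟨hlen, hf, hf'⟩
  obtain ⟨c, h1, h2⟩ := Pool.Agent.W890.LC.poly_three hk hlen (Pool.Agent.NPC.PIso.poly_iff.2 hf)
    (Pool.Agent.NPC.PIso.poly_iff.2 hf')
  exact ⟨c, Pool.Agent.W890.LC.poly_val_iff.2 h1, h2⟩

end Pool.Agent.Results.MP_f404b1_lc.ZLocalColouring
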